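import Mathlib

/-!
An algebraic poset which is not weakly atomic.

The counterexample is the ideal completion of the poset `ℚ × ℕ`, ordered by
`(a, n) ≤ (b, m)` iff the two pairs are equal or `a < b` and `n < m`.
-/

namespace Pool.Agent.Results.MP_e59eee_co.NotWeaklyAtomic

/-- A directed subset: nonempty, and any two elements have an upper bound in the subset. -/
def IsDirectedSet {P : Type*} [PartialOrder P] (D : Set P) : Prop :=
  D.Nonempty ∧ ∀ a ∈ D, ∀ b ∈ D, ∃ c ∈ D, a ≤ c ∧ b ≤ c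

/-- Up-completeness: every directed subset has a least upper bound. -/
def UpComplete (P : Type*) [PartialOrder P] : Prop :=
  ∀ D : Set P, IsDirectedSet D → ∃ s, IsLUB D s

/-- Compact elements. -/
def IsCompactElt {P : Type*} [PartialOrder P] (c : P) : Prop :=
  ∀ D : Set P, IsDirectedSet D → ∀ s, IsLUB D s → c ≤ s → ∃ d ∈ D, c ≤ d

/-- Algebraic posets: up-complete, and every element is the join of a directed set of
compact elements. -/
def IsAlgebraicPoset (P : Type*) [PartialOrder P] : Prop :=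
  UpComplete P ∧ ∀ x : P, ∃ D : Set P, IsDirectedSet D ∧ (∀ d ∈ D, IsCompactElt d) ∧ IsLUB D x

/-- Weak atomicity: between any `x < y` there is a covering pair. -/
def WeaklyAtomic (P : Type*) [PartialOrder P] : Prop :=
  ∀ x y : P, x < y → ∃ u v : P, x ≤ u ∧ u < v ∧ v ≤ y ∧ ¬ ∃ w, u < w ∧ w < v

/-- The poset `ℚ × ℕ` with `(a, n) ≤ (b, m)` iff equal, or `a < b` and `n < m`. -/
structure Q where
  fst : ℚ
  snd : ℕ

theorem Q.ext' {x y : Q} (h1 : x.fst = y.fst) (h2 : x.snd = y.snd) : x = y := by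
  cases x; cases y; simp_all

instance : PartialOrder Q where
  le x y := x = y ∨ (x.fst < y.fst ∧ x.snd < y.snd)
  le_refl x := Or.inl rfl
  le_trans x y z h1 h2 := by
    rcases h1 with rfl | ⟨h1, h1'⟩
    · exact h2
    · rcases h2 with rfl | ⟨h2, h2'⟩
      · exact Or.inr ⟨h1, h1'⟩
      · exact Or.inr ⟨h1.trans h2, h1'.trans h2'⟩
  le_antisymm x y h1 h2 := by
    rcases h1 with h1 | ⟨h1, _⟩
    · exact h1
    · rcases h2 with h2 | ⟨h2, _⟩
      · exact h2.symm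
      · exact absurd (h1.trans h2) (lt_irrefl _)

theorem Q.le_def {x y : Q} : x ≤ y ↔ x = y ∨ (x.fst < y.fst ∧ x.snd < y.snd) := Iff.rfl

/-- The set of ideals (nonempty directed down-sets) of a poset, ordered by inclusion. -/
def Idl (R : Type*) [PartialOrder R] : Type _ :=
  {I : Set R // IsDirectedSet I ∧ ∀ a b, a ≤ b → b ∈ I → a ∈ I}

instance (R : Type*) [PartialOrder R] : PartialOrder (Idl R) :=
  PartialOrder.lift (fun I => I.1) (fun _ _ h => Subtype.ext h)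

theorem Idl.le_def {R : Type*} [PartialOrder R] {I J : Idl R} : I ≤ J ↔ I.1 ⊆ J.1 := Iff.rfl

/-- The union of a directed family of ideals. -/
def Idl.union {R : Type*} [PartialOrder R] (D : Set (Idl R)) (hD : IsDirectedSet D) : Idl R :=
  ⟨⋃ I ∈ D, I.1, by
    obtain ⟨⟨I₀, hI₀⟩, hdir⟩ := hD
    refine ⟨⟨?_, ?_⟩, ?_⟩
    · obtain ⟨x, hx⟩ := I₀.2.1.1
      exact ⟨x, Set.mem_iUnion₂.2 ⟨I₀, hI₀, hx⟩⟩
    · intro a ha b hb
      obtain ⟨I, hI, ha⟩ := Set.mem_iUnion₂.1 ha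
      obtain ⟨J, hJ, hb⟩ := Set.mem_iUnion₂.1 hb
      obtain ⟨K, hK, hIK, hJK⟩ := hdir I hI J hJ
      obtain ⟨c, hc, hac, hbc⟩ := K.2.1.2 a (hIK ha) b (hJK hb)
      exact ⟨c, Set.mem_iUnion₂.2 ⟨K, hK, hc⟩, hac, hbc⟩
    · intro a b hab hb
      obtain ⟨J, hJ, hb⟩ := Set.mem_iUnion₂.1 hb
      exact Set.mem_iUnion₂.2 ⟨J, hJ, J.2.2 a b hab hb⟩⟩

theorem Idl.isLUB_union {R : Type*} [PartialOrder R] (D : Set (Idl R)) (hD : IsDirectedSet D) :
    IsLUB D (Idl.union D hD) := by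
  constructor
  · intro I hI x hx
    exact Set.mem_iUnion₂.2 ⟨I, hI, hx⟩
  · intro J hJ x hx
    obtain ⟨I, hI, hx⟩ := Set.mem_iUnion₂.1 hx
    exact hJ hI hx

/-- The principal ideal below `q`. -/
def Idl.principal {R : Type*} [PartialOrder R] (q : R) : Idl R :=
  ⟨{x | x ≤ q}, ⟨⟨q, le_refl q⟩, fun _ ha _ hb => ⟨q, le_refl q, ha, hb⟩⟩,
    fun _ _ hab hb => le_trans hab hb⟩

theorem Idl.isCompactElt_principal {R : Type*} [PartialOrder R] (q : R) :
    IsCompactElt (Idl.principal q) := by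
  intro D hD s hs hqs
  have h := hs.unique (Idl.isLUB_union D hD)
  subst h
  have hq : q ∈ (Idl.union D hD).1 := hqs (le_refl q)
  obtain ⟨I, hI, hx⟩ := Set.mem_iUnion₂.1 hq
  exact ⟨I, hI, fun x hxq => I.2.2 x q hxq hx⟩

theorem Idl.isAlgebraicPoset (R : Type*) [PartialOrder R] : IsAlgebraicPoset (Idl R) := by
  refine ⟨fun D hD => ⟨_, Idl.isLUB_union D hD⟩, fun I => ?_⟩
  refine ⟨Idl.principal '' I.1, ⟨I.2.1.1.image _, ?_⟩, ?_, ?_⟩
  · rintro _ ⟨a, ha, rfl⟩ _ ⟨b, hb, rfl⟩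
    obtain ⟨c, hc, hac, hbc⟩ := I.2.1.2 a ha b hb
    exact ⟨_, ⟨c, hc, rfl⟩, fun x hx => le_trans hx hac, fun x hx => le_trans hx hbc⟩
  · rintro _ ⟨a, _, rfl⟩
    exact Idl.isCompactElt_principal a
  · constructor
    · rintro _ ⟨a, ha, rfl⟩ x hx
      exact I.2.2 x a hx ha
    · intro J hJ x hx
      exact hJ ⟨x, hx, rfl⟩ (le_refl x)

/-- The ideal of all pairs `(a, n)` with `a < s`. -/
def K (s : ℚ) : Idl Q :=
  ⟨{x | x.fst < s}, by
    refine ⟨⟨⟨⟨s - 1, 0⟩, by simp⟩, ?_⟩, ?_⟩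
    · intro a ha b hb
      have ha' : a.fst < s := ha
      have hb' : b.fst < s := hb
      obtain ⟨c, hc, hcs⟩ := exists_between (max_lt ha' hb')
      rw [max_lt_iff] at hc
      refine ⟨⟨c, max a.snd b.snd + 1⟩, hcs, Or.inr ⟨hc.1, ?_⟩, Or.inr ⟨hc.2, ?_⟩⟩
      · exact Nat.lt_succ_of_le (le_max_left _ _)
      · exact Nat.lt_succ_of_le (le_max_right _ _)
    · intro a b hab hb
      rcases hab with rfl | ⟨h, _⟩
      · exact hb
      · exact h.trans hb⟩

theorem mem_K {s : ℚ} {x : Q} : x ∈ (K s).1 ↔ x.fst < s := Iff.rfl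

/-- Above `K 0`, an element of an ideal can be increased in both coordinates. -/
theorem exists_above {I : Idl Q} (hI : K 0 ≤ I) {x : Q} (hx : x ∈ I.1) (m : ℕ) :
    ∃ y ∈ I.1, x.fst < y.fst ∧ m < y.snd := by
  rcases lt_or_ge x.fst 0 with h0 | h0
  · refine ⟨⟨x.fst / 2, m + 1⟩, hI ?_, ?_, Nat.lt_succ_self m⟩
    · change x.fst / 2 < 0
      linarith
    · change x.fst < x.fst / 2
      linarith
  · have h1 : (⟨-1, max m x.snd⟩ : Q) ∈ I.1 := hI (by change (-1 : ℚ) < 0; norm_num)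
    obtain ⟨c, hc, hxc, h1c⟩ := I.2.1.2 x hx _ h1
    have hsnd : max m x.snd < c.snd := by
      rcases h1c with h | ⟨_, h⟩
      · exfalso
        have hc1 : c.fst = -1 := by rw [← h]
        rcases hxc with h' | ⟨h', _⟩
        · rw [h', hc1] at h0
          norm_num at h0
        · rw [hc1] at h'
          linarith
      · exact h
    have hm : m < c.snd := lt_of_le_of_lt (le_max_left _ _) hsnd
    have hn : x.snd < c.snd := lt_of_le_of_lt (le_max_right _ _) hsnd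
    refine ⟨c, hc, ?_, hm⟩
    rcases hxc with h | ⟨h, _⟩
    · exact absurd hn (by rw [h]; exact lt_irrefl _)
    · exact h

/-- Above `K 0`, ideals do not see the second coordinate. -/
theorem mem_of_le {I : Idl Q} (hI : K 0 ≤ I) {x : Q} (hx : x ∈ I.1) {y : Q}
    (hy : y.fst ≤ x.fst) : y ∈ I.1 := by
  obtain ⟨z, hz, hxz, hm⟩ := exists_above hI hx y.snd
  exact I.2.2 y z (Or.inr ⟨lt_of_le_of_lt hy hxz, hm⟩) hz

theorem K_lt : K 0 < K 1 := by
  refine lt_of_le_not_ge (fun x hx => ?_) (fun h => ?_)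
  · have hx' : x.fst < 0 := hx
    change x.fst < 1
    linarith
  · have h0 : (⟨0, 0⟩ : Q) ∈ (K 0).1 := h (by change (0 : ℚ) < 1; norm_num)
    have h0' : (0 : ℚ) < 0 := h0
    exact lt_irrefl _ h0'

/-- There is an algebraic poset with elements `x < y` such that no pair `u < v` in the
interval `[x, y]` is a covering pair. -/
theorem exists_counterexample : ∃ (P : Type) (_ : PartialOrder P), IsAlgebraicPoset P ∧
    ∃ x y : P, x < y ∧ ∀ u v : P, x ≤ u → u < v → v ≤ y → ∃ w, u < w ∧ w < v := by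
  refine ⟨Idl Q, inferInstance, Idl.isAlgebraicPoset Q, K 0, K 1, K_lt, ?_⟩
  intro u v hu huv _
  obtain ⟨p, hpv, hpu⟩ : ∃ p, p ∈ v.1 ∧ p ∉ u.1 := by
    by_contra hcon
    push Not at hcon
    exact (lt_irrefl _) (lt_of_lt_of_le huv hcon)
  have hv : K 0 ≤ v := hu.trans huv.le
  obtain ⟨q, hqv, hpq, _⟩ := exists_above hv hpv 0
  refine ⟨K q.fst, lt_of_le_not_ge ?_ ?_, lt_of_le_not_ge ?_ ?_⟩
  · intro x hx
    by_contra hcon
    have hqx : q.fst ≤ x.fst := not_lt.1 hcon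
    exact hpu (mem_of_le hu hx (hpq.le.trans hqx))
  · intro hle
    exact hpu (hle hpq)
  · intro x hx
    exact mem_of_le hv hqv (le_of_lt hx)
  · intro hle
    have : q.fst < q.fst := hle hqv
    exact lt_irrefl _ this

/-- There is an algebraic poset which is not weakly atomic. -/
theorem result : ∃ (P : Type) (_ : PartialOrder P), IsAlgebraicPoset P ∧ ¬ WeaklyAtomic P := by
  obtain ⟨P, hP, halg, x, y, hxy, h⟩ := exists_counterexample
  refine ⟨P, hP, halg, fun hall => ?_⟩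
  obtain ⟨u, v, hu, huv, hv, hcov⟩ := hall x y hxy
  exact hcov (h u v hu huv hv)

end Pool.Agent.Results.MP_e59eee_co.NotWeaklyAtomic
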